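import Pool.Agent.H.MP_1a7c10_an.T
import Pool.Agent.H.MP_259edd_an.A
set_option autoImplicit false

namespace Pool.Agent.H.MP_557517_an
open Set Metric Filter Topology
open Pool.Agent.H.MP_1a7c10_an
open Pool.Agent.H.MP_259edd_an (clamp clamp_lip clamp_nonneg clamp_le_one clamp_abs clamp_one
  clamp_zero smul_diff_le)

universe u

variable {p : ℝ} {M : Type u} [MetricSpace M] {o : M} {X : Type u} [NormedAddCommGroup X]
  [Module ℝ X] {δ : M → X}

noncomputable def slow (z : M) (τ : ℝ) (x : M) : ℝ := Real.log (max (dist x z) τ / τ)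

lemma log_sub_le {a b : ℝ} (ha : 0 < a) (hab : a ≤ b) : (Real.log b - Real.log a) * a ≤ b - a := by
  have hb : 0 < b := lt_of_lt_of_le ha hab
  rw [← Real.log_div hb.ne' ha.ne']
  have := Real.log_le_sub_one_of_pos (div_pos hb ha)
  have h2 := mul_le_mul_of_nonneg_right this ha.le
  have e : (b / a - 1) * a = b - a := by field_simp
  linarith

lemma slow_lip (z : M) {τ : ℝ} (hτ : 0 < τ) (x y : M) (hxy : dist x z ≤ dist y z) :
    |slow z τ x - slow z τ y| * dist x z ≤ dist x y := by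
  unfold slow
  set a := max (dist x z) τ with ha
  set b := max (dist y z) τ with hb
  have a0 : 0 < a := lt_of_lt_of_le hτ (le_max_right _ _)
  have ab : a ≤ b := max_le_max hxy le_rfl
  have b0 : 0 < b := lt_of_lt_of_le a0 ab
  rw [Real.log_div a0.ne' hτ.ne', Real.log_div b0.ne' hτ.ne']
  have h1 := Real.log_le_log a0 ab
  have e : |Real.log a - Real.log τ - (Real.log b - Real.log τ)| = Real.log b - Real.log a := by
    rw [abs_of_nonpos (by linarith)]; ring
  rw [e]
  have h2 := log_sub_le a0 ab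
  have h3 : (Real.log b - Real.log a) * dist x z ≤ (Real.log b - Real.log a) * a :=
    mul_le_mul_of_nonneg_left (le_max_left _ _) (by linarith)
  have h4 : b - a ≤ dist y z - dist x z := by
    rcases le_total (dist y z) τ with h | h
    · rw [hb, max_eq_right h]; have := le_max_right (dist x z) τ; linarith
    · rw [hb, max_eq_left h]; have := le_max_left (dist x z) τ; linarith
  have h5 := dist_triangle y x z
  rw [dist_comm y x] at h5
  linarith

lemma slow_small (z : M) {τ : ℝ} (hτ : 0 < τ) {x : M} (h : dist x z ≤ τ) : slow z τ x = 0 := by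
  unfold slow; rw [max_eq_right h, div_self hτ.ne', Real.log_one]

lemma slow_big (z : M) {τ L : ℝ} (hτ : 0 < τ) {x : M} (h : τ * Real.exp L ≤ dist x z) :
    L ≤ slow z τ x := by
  unfold slow
  rw [Real.le_log_iff_exp_le (div_pos (lt_of_lt_of_le hτ (le_max_right _ _)) hτ),
    le_div_iff₀ hτ, mul_comm]
  exact h.trans (le_max_left _ _)

lemma weight_lip (c : CtxK ℝ p o δ) (z : M) (h : M → ℝ) {κ : ℝ} (hκ : 0 ≤ κ)
    (hb : ∀ x, |h x| ≤ 1)
    (hl : ∀ x y, dist x z ≤ dist y z → |h x - h y| * dist x z ≤ κ * dist x y) (x y : M) :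
    ‖h x • (δ x - δ z) - h y • (δ y - δ z)‖ ≤ (1 + κ ^ p) * dist x y ^ p := by
  have hp := c.hp
  have key : ∀ x y, dist x z ≤ dist y z →
      ‖h x • (δ x - δ z) - h y • (δ y - δ z)‖ ≤ (1 + κ ^ p) * dist x y ^ p := by
    intro x y hxy
    refine (smul_diff_le c.hom _ _ _ _).trans ?_
    rw [sub_sub_sub_cancel_right, c.iso, c.iso, ← Real.mul_rpow (abs_nonneg _) dist_nonneg]
    have h1 := Real.rpow_le_rpow (mul_nonneg (abs_nonneg _) dist_nonneg) (hl x y hxy) hp.le
    rw [Real.mul_rpow hκ dist_nonneg] at h1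
    have h2 : |h y| ^ p * dist x y ^ p ≤ 1 * dist x y ^ p :=
      mul_le_mul_of_nonneg_right (Real.rpow_le_one (abs_nonneg _) (hb y) hp.le) (by positivity)
    linarith
  rcases le_total (dist x z) (dist y z) with h' | h'
  · exact key x y h'
  · rw [norm_sub_rev, dist_comm]; exact key y x h'

structure Op (δ : M → X) (T : X →ₗ[ℝ] X) (η : ℝ) (V : Submodule ℝ X) : Prop where
  nrm : ∀ u, ‖T u‖ ≤ (1 + η) * ‖u‖
  app : ∀ x, ‖T (δ x) - δ x‖ ≤ η
  fin : FiniteDimensional ℝ V
  str : ∀ x, ∃ t : ℝ, T (δ x) - t • δ x ∈ V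

def Kl (δ : M → X) (η : ℝ) (A : Set M) : Prop :=
  ∃ (T : X →ₗ[ℝ] X) (V : Submodule ℝ X), Op δ T η V ∧ ∀ x ∈ A, T (δ x) ∈ V

lemma Kl.union {η : ℝ} (h0 : 0 ≤ η) (h1 : η ≤ 1) {A B : Set M} (hA : Kl δ η A) (hB : Kl δ η B) :
    Kl δ (3 * η) (A ∪ B) := by
  obtain ⟨T1, V1, o1, k1⟩ := hA
  obtain ⟨T2, V2, o2, k2⟩ := hB
  have := o1.fin
  have := o2.fin
  refine ⟨T2.comp T1, V1.map T2 ⊔ V2, ⟨fun u => ?_, fun x => ?_, inferInstance, fun x => ?_⟩, ?_⟩
  · have a1 := o1.nrm u
    have a2 := o2.nrm (T1 u)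
    have a3 := mul_le_mul_of_nonneg_left a1 (by linarith : 0 ≤ 1 + η)
    have a4 : (1 + η) * (1 + η) * ‖u‖ ≤ (1 + 3 * η) * ‖u‖ :=
      mul_le_mul_of_nonneg_right (by nlinarith) (norm_nonneg _)
    simp only [LinearMap.comp_apply]
    nlinarith
  · have e : (T2.comp T1) (δ x) - δ x = T2 (T1 (δ x) - δ x) + (T2 (δ x) - δ x) := by
      simp only [LinearMap.comp_apply, map_sub]; abel
    rw [e]
    refine (norm_add_le _ _).trans ?_
    have a1 := o2.nrm (T1 (δ x) - δ x)
    have a2 := mul_le_mul_of_nonneg_left (o1.app x) (by linarith : 0 ≤ 1 + η)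
    have a3 := o2.app x
    nlinarith
  · obtain ⟨t1, m1⟩ := o1.str x
    obtain ⟨t2, m2⟩ := o2.str x
    refine ⟨t1 * t2, ?_⟩
    have e : (T2.comp T1) (δ x) - (t1 * t2) • δ x
        = T2 (T1 (δ x) - t1 • δ x) + t1 • (T2 (δ x) - t2 • δ x) := by
      simp only [LinearMap.comp_apply, map_sub, map_smul, smul_sub, smul_smul]; abel
    rw [e]
    exact Submodule.add_mem_sup (Submodule.mem_map_of_mem m1) (Submodule.smul_mem _ _ m2)
  · rintro x (hx | hx)
    · exact Submodule.mem_sup_left (Submodule.mem_map_of_mem (k1 x hx))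
    · obtain ⟨t1, m1⟩ := o1.str x
      have e : (T2.comp T1) (δ x) = T2 (T1 (δ x) - t1 • δ x) + t1 • T2 (δ x) := by
        simp only [LinearMap.comp_apply, map_sub, map_smul]; abel
      rw [e]
      exact Submodule.add_mem_sup (Submodule.mem_map_of_mem m1)
        (Submodule.smul_mem _ _ (k2 x hx))

lemma Kl.mono {η η' : ℝ} (h : η ≤ η') {A B : Set M} (hAB : A ⊆ B) (hB : Kl δ η B) :
    Kl δ η' A := by
  obtain ⟨T, V, o1, k1⟩ := hB
  exact ⟨T, V, ⟨fun u => (o1.nrm u).trans
    (mul_le_mul_of_nonneg_right (by linarith) (norm_nonneg _)),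
    fun x => (o1.app x).trans h, o1.fin, o1.str⟩, fun x hx => k1 x (hAB hx)⟩

def P (δ : M → X) (A : Set M) : Prop := ∀ η > 0, Kl δ η A

lemma P_empty : P δ (∅ : Set M) := fun η hη =>
  ⟨LinearMap.id, ⊥, ⟨fun u => by simpa using by nlinarith [norm_nonneg u],
    fun x => by simpa using hη.le, inferInstance, fun x => ⟨1, by simp⟩⟩, fun x hx => hx.elim⟩

lemma small3 {η : ℝ} (hη : 0 < η) : ∃ η' > 0, η' ≤ 1 ∧ 3 * η' ≤ η :=
  ⟨min 1 (η / 3), by positivity, min_le_left _ _, by
    have := min_le_right 1 (η / 3); linarith⟩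

lemma P.union {A B : Set M} (hA : P δ A) (hB : P δ B) : P δ (A ∪ B) := by
  intro η hη
  obtain ⟨η', h0, h1, h3⟩ := small3 hη
  exact ((hA η' h0).union h0.le h1 (hB η' h0)).mono h3 subset_rfl

lemma collapse [CompleteSpace X] (c : CtxK ℝ p o δ) (z : M) {η : ℝ} (hη : 0 < η) :
    ∃ τ > 0, Kl δ η (ball z τ) := by
  have hp := c.hp
  set κ := η ^ (1 / p) with hκ
  have κ0 : 0 < κ := by positivity
  have κp : κ ^ p = η := inv1 hp hη.le
  set τ' := (η / 2) ^ (1 / p) with hτ'
  have τ'0 : 0 < τ' := by positivity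
  have τ'p : τ' ^ p = η / 2 := inv1 hp (by positivity)
  set τ := τ' * Real.exp (-(1 / κ)) with hτ
  have τ0 : 0 < τ := by positivity
  set h : M → ℝ := fun x => clamp (κ * slow z τ x) with hh
  have hl : ∀ x y, dist x z ≤ dist y z → |h x - h y| * dist x z ≤ κ * dist x y := by
    intro x y hxy
    refine (mul_le_mul_of_nonneg_right (clamp_lip _ _) dist_nonneg).trans ?_
    rw [← mul_sub, abs_mul, abs_of_pos κ0, mul_assoc]
    exact mul_le_mul_of_nonneg_left (slow_lip z τ0 x y hxy) κ0.le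
  have h1 : ∀ x, τ' ≤ dist x z → h x = 1 := by
    intro x hx
    apply clamp_one
    have := slow_big z (L := 1 / κ) τ0 (x := x) (by
      rw [hτ, mul_assoc, ← Real.exp_add]; simpa using hx)
    rw [div_le_iff₀ κ0] at this
    linarith
  have h2 : ∀ x, ‖(h x - 1) • (δ x - δ z)‖ ≤ η / 2 := by
    intro x
    by_cases hx : τ' ≤ dist x z
    · rw [h1 x hx]; simp; positivity
    · rw [c.hom, c.iso]
      have a1 : ‖h x - 1‖ ^ p ≤ 1 := Real.rpow_le_one (norm_nonneg _) (by
        have := clamp_nonneg (κ * slow z τ x)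
        have := clamp_le_one (κ * slow z τ x)
        rw [Real.norm_eq_abs, abs_le]; constructor <;> simp only [hh] <;> linarith) hp.le
      have a2 : dist x z ^ p ≤ η / 2 := by
        rw [← τ'p]; exact Real.rpow_le_rpow dist_nonneg (not_le.mp hx).le hp.le
      calc _ ≤ 1 * (η / 2) := mul_le_mul a1 a2 (by positivity) zero_le_one
        _ = η / 2 := one_mul _
  obtain ⟨T, hT, hC⟩ := c.univ X c.hom (fun x => h x • (δ x - δ z) - h o • (δ o - δ z))
    (1 + κ ^ p) (by positivity) (by simp) (fun x y => by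
      rw [sub_sub_sub_cancel_right]
      exact weight_lip c z h κ0.le (fun x => clamp_abs _) hl x y)
  refine ⟨τ, τ0, T, Submodule.span ℝ {δ z}, ⟨by rwa [κp] at hC, fun x => ?_, inferInstance,
    fun x => ⟨h x, ?_⟩⟩, fun x hx => ?_⟩
  · have e : T (δ x) - δ x = (h x - 1) • (δ x - δ z) - (h o - 1) • (δ o - δ z) := by
      rw [hT, c.h0]; simp only [sub_smul, smul_sub, one_smul, smul_zero]; abel
    rw [e]
    have := h2 x
    have := h2 o
    have := norm_sub_le ((h x - 1) • (δ x - δ z)) ((h o - 1) • (δ o - δ z))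
    linarith
  · have e : T (δ x) - h x • δ x = (h o - h x) • δ z := by
      rw [hT, c.h0]; simp only [sub_smul, smul_sub, smul_zero]; abel
    rw [e]
    exact Submodule.smul_mem _ _ (Submodule.subset_span rfl)
  · have : h x = 0 := by
      simp only [hh]; rw [slow_small z τ0 (mem_ball.mp hx).le, mul_zero]; exact clamp_zero le_rfl
    have e : T (δ x) = h o • δ z := by
      rw [hT, c.h0, this]; simp
    rw [e]
    exact Submodule.smul_mem _ _ (Submodule.subset_span rfl)

lemma P_compact {K : Set M} (hK : IsCompact K) (h : ∀ x ∈ K, ∃ s > 0, P δ (closedBall x s)) :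
    P δ K := by
  refine hK.induction_on P_empty (fun s t hst ht η hη => (ht η hη).mono le_rfl hst)
    (fun s t hs ht => hs.union ht) (fun x hx => ?_)
  obtain ⟨s, hs, hP⟩ := h x hx
  exact ⟨_, mem_nhdsWithin_of_mem_nhds (closedBall_mem_nhds x hs), hP⟩

lemma all_good [CompleteSpace X] [ProperSpace M] [Countable M] (c : CtxK ℝ p o δ) (x : M) :
    ∃ s > 0, P δ (closedBall x s) := by
  by_contra hx
  set Bad : Set M := {x | ¬ ∃ s > 0, P δ (closedBall x s)} with hBad
  have hcl : IsClosed Bad := by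
    rw [← isOpen_compl_iff, Metric.isOpen_iff]
    intro y hy
    obtain ⟨s, hs, hP⟩ : ∃ s > 0, P δ (closedBall y s) := by simpa [hBad] using hy
    refine ⟨s / 2, by positivity, fun w hw => ?_⟩
    simp only [hBad, mem_compl_iff, mem_ofPred_eq, not_not]
    refine ⟨s / 2, by positivity, fun η hη => (hP η hη).mono le_rfl ?_⟩
    apply closedBall_subset_closedBall'
    have := mem_ball.mp hw
    linarith
  haveI : CompleteSpace Bad := hcl.completeSpace_coe
  haveI : Nonempty Bad := ⟨⟨x, hx⟩⟩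
  obtain ⟨z, hz⟩ := nonempty_interior_of_iUnion_of_closed (X := Bad) (ι := Bad)
    (f := fun z => {z}) (fun z => isClosed_singleton) (by ext w; simp)
  obtain ⟨w, hw⟩ := hz
  have hwz : w = z := mem_singleton_iff.mp (interior_subset hw)
  subst hwz
  obtain ⟨s, hs, hb⟩ := Metric.mem_nhds_iff.mp (mem_interior_iff_mem_nhds.mp hw)
  apply w.2
  refine ⟨s / 2, by positivity, fun η hη => ?_⟩
  obtain ⟨η', h0, h1, h3⟩ := small3 hη
  obtain ⟨τ, hτ, hk⟩ := collapse c w.1 h0
  have hP : P δ (closedBall w.1 (s / 2) \ ball w.1 τ) := by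
    apply P_compact ((isCompact_closedBall _ _).diff isOpen_ball)
    intro y hy
    by_contra hy'
    have : (⟨y, hy'⟩ : Bad) = w := hb (by
      have := mem_closedBall.mp hy.1
      rw [mem_ball, Subtype.dist_eq]
      simp only
      linarith)
    have e : y = w.1 := congrArg Subtype.val this
    exact hy.2 (by rw [e]; exact mem_ball_self hτ)
  refine (hk.union h0.le h1 (hP η' h0)).mono h3 ?_
  intro y hy
  by_cases h : y ∈ ball w.1 τ
  · exact Or.inl h
  · exact Or.inr ⟨hy, h⟩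

lemma contSMul (hp : 0 < p) (hom : ∀ (t : ℝ) (u : X), ‖t • u‖ = ‖t‖ ^ p * ‖u‖) :
    ContinuousSMul ℝ X := by
  refine ⟨continuous_iff_continuousAt.mpr (fun q => ?_)⟩
  rw [ContinuousAt, tendsto_iff_norm_sub_tendsto_zero]
  refine squeeze_zero (fun _ => norm_nonneg _)
    (g := fun r : ℝ × X => |r.1 - q.1| ^ p * ‖r.2‖ + |q.1| ^ p * ‖r.2 - q.2‖)
    (fun r => smul_diff_le hom _ _ _ _) ?_
  have hc : Continuous (fun r : ℝ × X => |r.1 - q.1| ^ p * ‖r.2‖ + |q.1| ^ p * ‖r.2 - q.2‖) := by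
    have h1 : Continuous (fun r : ℝ × X => |r.1 - q.1| ^ p) :=
      (Real.continuous_rpow_const hp.le).comp (by fun_prop)
    fun_prop
  have := hc.tendsto q
  simpa [Real.zero_rpow hp.ne'] using this

lemma approx_op [CompleteSpace X] [ProperSpace M] [Countable M] (c : CtxK ℝ p o δ) {R t η : ℝ}
    (hR : 0 < R) (t0 : 0 < t) (t1 : t < 1) (hη : 0 < η) :
    ∃ S : X →ₗ[ℝ] X, FiniteDimensional ℝ (LinearMap.range S) ∧ (∀ u, ‖S u‖ ≤ ‖u‖) ∧
      ∀ x, dist x o ≤ R → ‖S (δ x) - δ x‖ ≤ η + |t - 1| ^ p * ‖δ x‖ := by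
  have hp := c.hp
  haveI := contSMul hp c.hom
  have tp : t ^ p < 1 := Real.rpow_lt_one t0.le t1 hp
  have tp0 : 0 < t ^ p := by positivity
  obtain ⟨η', h0, h1, h3⟩ := small3 (η := min η (1 / t ^ p - 1)) (by
    have : 1 < 1 / t ^ p := by rw [lt_div_iff₀ tp0]; linarith
    exact lt_min hη (by linarith))
  have h4 : η' ≤ η := by have := min_le_left η (1 / t ^ p - 1); linarith
  have h5 : t ^ p * (1 + 3 * η') ≤ 1 := by
    have := min_le_right η (1 / t ^ p - 1)
    have : 1 + 3 * η' ≤ 1 / t ^ p := by linarith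
    rw [le_div_iff₀ tp0] at this
    linarith
  set κ := η' ^ (1 / p) with hκ
  have κ0 : 0 < κ := by positivity
  have κp : κ ^ p = η' := inv1 hp h0.le
  set h : M → ℝ := fun x => clamp (1 - κ * slow o R x) with hh
  have hl : ∀ x y, dist x o ≤ dist y o → |h x - h y| * dist x o ≤ κ * dist x y := by
    intro x y hxy
    refine (mul_le_mul_of_nonneg_right (clamp_lip _ _) dist_nonneg).trans ?_
    have e : 1 - κ * slow o R x - (1 - κ * slow o R y) = -(κ * (slow o R x - slow o R y)) := by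
      ring
    rw [e, abs_neg, abs_mul, abs_of_pos κ0, mul_assoc]
    exact mul_le_mul_of_nonneg_left (slow_lip o hR x y hxy) κ0.le
  obtain ⟨T0, hT0, hC0⟩ := c.univ X c.hom (fun x => h x • δ x)
    (1 + κ ^ p) (by positivity) (by simp [c.h0]) (fun x y => by
      have := weight_lip c o h κ0.le (fun x => clamp_abs _) hl x y
      simpa [c.h0] using this)
  rw [κp] at hC0
  obtain ⟨T1, V, o1, k1⟩ := P_compact (isCompact_closedBall o (R * Real.exp (1 / κ)))
    (fun x _ => all_good c x) η' h0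
  haveI := o1.fin
  have hn : ∀ u, ‖(t • T1.comp T0) u‖ ≤ ‖u‖ := by
    intro u
    simp only [LinearMap.smul_apply, LinearMap.comp_apply]
    rw [c.hom, Real.norm_eq_abs, abs_of_pos t0]
    have a1 := hC0 u
    have a2 := o1.nrm (T0 u)
    have a3 := mul_le_mul_of_nonneg_left a1 (by linarith : 0 ≤ 1 + η')
    have a4 : (1 + η') * (1 + η') * ‖u‖ ≤ (1 + 3 * η') * ‖u‖ :=
      mul_le_mul_of_nonneg_right (by nlinarith) (norm_nonneg _)
    have a5 : ‖T1 (T0 u)‖ ≤ (1 + 3 * η') * ‖u‖ := by nlinarith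
    have a6 := mul_le_mul_of_nonneg_left a5 tp0.le
    have a7 := mul_le_mul_of_nonneg_right h5 (norm_nonneg u)
    nlinarith
  refine ⟨t • T1.comp T0, ?_, hn, fun x hx => ?_⟩
  · have hle : LinearMap.range (t • T1.comp T0) ≤ V := by
      rintro _ ⟨u, rfl⟩
      have hc : Continuous (t • T1.comp T0 : X →ₗ[ℝ] X) :=
        AddMonoidHomClass.continuous_of_bound _ 1 (fun u => by rw [one_mul]; exact hn u)
      have hV : IsClosed (V : Set X) := V.closed_of_finiteDimensional
      have h1 : ((Submodule.span ℝ (range δ) : Submodule ℝ X) : Set X) ⊆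
          (t • T1.comp T0 : X →ₗ[ℝ] X) ⁻¹' V := by
        have : Submodule.span ℝ (range δ) ≤ V.comap (t • T1.comp T0) := by
          rw [Submodule.span_le]
          rintro _ ⟨x, rfl⟩
          simp only [SetLike.mem_coe, Submodule.mem_comap, LinearMap.smul_apply,
            LinearMap.comp_apply, hT0, map_smul]
          apply Submodule.smul_mem
          by_cases hx : dist x o ≤ R * Real.exp (1 / κ)
          · exact Submodule.smul_mem _ _ (k1 x hx)
          · have := slow_big o (L := 1 / κ) hR (x := x) (not_le.mp hx).le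
            rw [div_le_iff₀ κ0] at this
            have : h x = 0 := clamp_zero (by linarith)
            rw [this, zero_smul]; exact V.zero_mem
        intro v hv
        exact this hv
      exact closure_minimal h1 (hV.preimage hc) (c.dense u)
    exact Submodule.finiteDimensional_of_le hle
  · have : h x = 1 := by
      simp only [hh]; rw [slow_small o hR hx, mul_zero, sub_zero]; exact clamp_one le_rfl
    have e : (t • T1.comp T0) (δ x) - δ x = t • (T1 (δ x) - δ x) + (t - 1) • δ x := by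
      simp only [LinearMap.smul_apply, LinearMap.comp_apply, hT0, this, one_smul, smul_sub,
        sub_smul]
      abel
    rw [e]
    refine (norm_add_le _ _).trans ?_
    rw [c.hom, c.hom, Real.norm_eq_abs, abs_of_pos t0, Real.norm_eq_abs]
    have := mul_le_mul tp.le (o1.app x) (norm_nonneg _) zero_le_one
    linarith

theorem map_main [CompleteSpace X] [ProperSpace M] [Countable M] (c : CtxK ℝ p o δ)
    {C : Set X} (hC : IsCompact C) {ε : ℝ} (hε : 0 < ε) :
    ∃ S : X →ₗ[ℝ] X, FiniteDimensional ℝ (LinearMap.range S) ∧ (∀ u, ‖S u‖ ≤ ‖u‖) ∧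
      ∀ x ∈ C, ‖S x - x‖ ≤ ε := by
  have hp := c.hp
  haveI := contSMul hp c.hom
  have ex : ∀ n : ℕ, ∃ S : X →ₗ[ℝ] X, FiniteDimensional ℝ (LinearMap.range S) ∧
      (∀ u, ‖S u‖ ≤ ‖u‖) ∧ ∀ x, dist x o ≤ n + 1 →
        ‖S (δ x) - δ x‖ ≤ 1 / ((n:ℝ) + 1) + (1 / 2 * (1 / ((n:ℝ) + 1))) ^ p * ‖δ x‖ := by
    intro n
    have h0 : 0 < 1 / ((n:ℝ) + 1) := by positivity
    have h1 : 1 / ((n:ℝ) + 1) ≤ 1 := by
      rw [div_le_one (by positivity)]; have := n.cast_nonneg (α := ℝ); linarith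
    obtain ⟨S, a, b, d⟩ := approx_op c (R := n + 1) (t := 1 - 1 / 2 * (1 / ((n:ℝ) + 1)))
      (η := 1 / ((n:ℝ) + 1)) (by positivity) (by linarith) (by linarith) h0
    refine ⟨S, a, b, fun x hx => ?_⟩
    have := d x hx
    rwa [sub_sub_cancel_left, abs_neg, abs_of_pos (by positivity)] at this
  choose S hS1 hS2 hS3 using ex
  have t1 : ∀ x, Tendsto (fun n => S n (δ x)) atTop (𝓝 (δ x)) := by
    intro x
    rw [tendsto_iff_norm_sub_tendsto_zero]
    have hc : Continuous (fun s : ℝ => s + (1 / 2 * s) ^ p * ‖δ x‖) := by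
      have h1 : Continuous (fun s : ℝ => (1 / 2 * s) ^ p) :=
        (Real.continuous_rpow_const hp.le).comp (by fun_prop)
      fun_prop
    have h2 := (hc.tendsto 0).comp (tendsto_one_div_add_atTop_nhds_zero_nat (𝕜 := ℝ))
    simp only [mul_zero, Real.zero_rpow hp.ne', zero_mul, add_zero] at h2
    refine squeeze_zero' (Eventually.of_forall (fun _ => norm_nonneg _)) ?_ h2
    obtain ⟨k, hk⟩ := exists_nat_ge (dist x o)
    filter_upwards [eventually_ge_atTop k] with n hn
    have : (k:ℝ) ≤ n := by exact_mod_cast hn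
    exact hS3 n x (by linarith)
  have t2 : ∀ u ∈ Submodule.span ℝ (range δ), Tendsto (fun n => S n u) atTop (𝓝 u) := by
    intro u hu
    induction hu using Submodule.span_induction with
    | mem x hx => obtain ⟨y, rfl⟩ := hx; exact t1 y
    | zero => simp
    | add x y _ _ hx hy => simpa using hx.add hy
    | smul a x _ hx => simpa using hx.const_smul a
  have t3 : ∀ᶠ n in atTop, ∀ x ∈ C, ‖S n x - x‖ ≤ ε := by
    refine hC.induction_on (p := fun C => ∀ᶠ n in atTop, ∀ x ∈ C, ‖S n x - x‖ ≤ ε) (by simp)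
      (fun s t hst ht => ht.mono (fun n hn x hx => hn x (hst hx)))
      (fun s t hs ht => (hs.and ht).mono (fun n hn x hx => hx.elim (hn.1 x) (hn.2 x)))
      (fun x _ => ?_)
    obtain ⟨u, hu, hd⟩ := Metric.mem_closure_iff.mp (c.dense x) (ε / 3) (by positivity)
    refine ⟨ball u (ε / 3), mem_nhdsWithin_of_mem_nhds (isOpen_ball.mem_nhds hd), ?_⟩
    filter_upwards [Metric.tendsto_nhds.mp (t2 u hu) (ε / 3) (by positivity)] with n hn y hy
    have e : S n y - y = S n (y - u) + (S n u - u) - (y - u) := by rw [map_sub]; abel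
    rw [e]
    have a1 := norm_sub_le (S n (y - u) + (S n u - u)) (y - u)
    have a2 := norm_add_le (S n (y - u)) (S n u - u)
    have a3 := hS2 n (y - u)
    rw [mem_ball, dist_eq_norm] at hy
    rw [dist_eq_norm] at hn
    linarith
  obtain ⟨n, hn⟩ := t3.exists
  exact ⟨S n, hS1 n, hS2 n, hn⟩

end Pool.Agent.H.MP_557517_an
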